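import Pool.Agent.Work.MP_547619_co_helper96.Asymptotic

/-!
MP_547619_co: `c_f = 1 - (4 + o(1)) / d` for graphs of maximum degree at most `d` and for graphs of
average degree at most `d`. The definitions used are in `Work/MP_547619_co_helper96/Defs.lean`.
-/

open Filter Topology

theorem Pool.Agent.Results.MP_547619_co.AsymptoticValue.result :
    Tendsto (fun d : ℕ => (d : ℝ) * (1 - Frag.fragCoeff (Frag.maxDegClass d))) atTop (𝓝 4) ∧
    Tendsto (fun d : ℕ => (d : ℝ) * (1 - Frag.fragCoeff (Frag.avgDegClass d))) atTop (𝓝 4) :=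
  Frag.main_limits
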