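import Pool.Agent.Work.MP_547619_s4.Glue

/-!
MP_547619_co: every graph without induced `K_{1,4}` is made of bounded tree-width by the deletion of
`|E| / 6 + ε n` vertices; the exact coefficients of fragmentability of the graphs without induced
`K_{1,4}`, for maximum degree and for average degree at most `4`, `5` and `6`.
The basic definitions are in `Work/MP_547619_co_helper96/Defs.lean`.
-/

open Frag

namespace Pool.Agent.Results.MP_547619_co.InducedStarFree

/-- No induced `K_{1,4}`: no vertex has four pairwise non-adjacent neighbours. -/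
def starFree : GraphClass := fun n G =>
  ∀ (v : Fin n) (s : Finset (Fin n)), s.card = 4 → (∀ x ∈ s, G.Adj v x) →
    ∃ x ∈ s, ∃ y ∈ s, G.Adj x y

/-- Maximum degree at most `d` and no induced `K_{1,4}`. -/
def maxStarFree (d : ℕ) : GraphClass := fun n G => maxDegClass d n G ∧ starFree n G

/-- Average degree at most `d` and no induced `K_{1,4}`. -/
def avgStarFree (d : ℕ) : GraphClass := fun n G => avgDegClass d n G ∧ starFree n G

theorem result :
    (fragCoeff (maxStarFree 4) = 1 / 3 ∧ fragCoeff (avgStarFree 4) = 1 / 3) ∧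
    (fragCoeff (maxStarFree 5) = 5 / 12 ∧ fragCoeff (avgStarFree 5) = 5 / 12) ∧
    (fragCoeff (maxStarFree 6) = 1 / 2 ∧ fragCoeff (avgStarFree 6) = 1 / 2) ∧
    ∀ ε : ℝ, 0 < ε → ∃ k : ℕ, ∀ (n : ℕ) (G : SimpleGraph (Fin n)), starFree n G →
      ∃ S : Finset (Fin n), (S.card : ℝ) ≤ (G.edgeSet.ncard : ℝ) / 6 + ε * n ∧
        TreeWidthLE (G.induce {v | v ∉ S}) k := by
  obtain ⟨h, h'⟩ := S4.s4_main
  refine ⟨?_, ?_, ?_, h'⟩
  · obtain ⟨h1, h2⟩ := h 4 (Or.inl rfl)
    have e : ((4 : ℕ) : ℝ) / 12 = 1 / 3 := by norm_num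
    rw [e] at h1 h2
    exact ⟨h1, h2⟩
  · obtain ⟨h1, h2⟩ := h 5 (Or.inr (Or.inl rfl))
    have e : ((5 : ℕ) : ℝ) / 12 = 5 / 12 := by norm_num
    rw [e] at h1 h2
    exact ⟨h1, h2⟩
  · obtain ⟨h1, h2⟩ := h 6 (Or.inr (Or.inr rfl))
    have e : ((6 : ℕ) : ℝ) / 12 = 1 / 2 := by norm_num
    rw [e] at h1 h2
    exact ⟨h1, h2⟩

end Pool.Agent.Results.MP_547619_co.InducedStarFree
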