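import Pool.Agent.Work.MP_547619_kz.Glue

/-!
MP_547619_co: both coefficients of fragmentability inside the class of the graphs of Krausz dimension
at most three (the line graphs of linear hypergraphs of rank at most three), for every `d ≥ 4`.
The basic definitions are in `Work/MP_547619_co_helper96/Defs.lean`, `krauszClass` is in
`Work/MP_547619_kz/Krausz.lean`.
-/

open Frag Frag.Kz

namespace Pool.Agent.Results.MP_547619_co.KrauszThree

/-- Maximum degree at most `d` and Krausz dimension at most three. -/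
def kzMax (d : ℕ) : GraphClass := fun n G => maxDegClass d n G ∧ krauszClass 3 n G

/-- Average degree at most `d` and Krausz dimension at most three. -/
def kzAvg (d : ℕ) : GraphClass := fun n G => avgDegClass d n G ∧ krauszClass 3 n G

theorem result :
    (∀ d : ℕ, 4 ≤ d → Even d →
      fragCoeff (kzMax d) = ((d : ℝ) - 2) / ((d : ℝ) + 2) ∧
      fragCoeff (kzAvg d) = ((d : ℝ) - 2) / ((d : ℝ) + 2)) ∧
    (∀ d : ℕ, 4 ≤ d → Odd d →
      fragCoeff (kzMax d) = ((d : ℝ) ^ 2 - 5) / (((d : ℝ) + 1) * ((d : ℝ) + 3)) ∧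
      fragCoeff (kzAvg d) = ((d : ℝ) ^ 2 - 5) / (((d : ℝ) + 1) * ((d : ℝ) + 3))) :=
  ⟨value_even, value_odd⟩

end Pool.Agent.Results.MP_547619_co.KrauszThree
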