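import Pool.Agent.Work.MP_547619_co_h92.Upper
import Pool.Agent.Work.MP_547619_co_helper96.Upper

/-!
MP_547619_co: the exact coefficient of fragmentability of the quasi-line graphs of maximum degree at
most `d`, for every `d ≥ 2`, and the same lower bound for `Γ_d` and `Γ̄_d` with `d` odd.
The basic definitions are in `Work/MP_547619_co_helper96/Defs.lean`, `quasiLineClass` is in
`Work/MP_547619_co_h92/Lower.lean`.
-/

open Frag

namespace Pool.Agent.Results.MP_547619_co.QuasiLineExact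

theorem value_even (d : ℕ) (hd : 2 ≤ d) (he : Even d) :
    fragCoeff (quasiLineClass d) = ((d : ℝ) - 2) / ((d : ℝ) + 2) := by
  obtain ⟨r, hr⟩ := he
  rw [quasi_exact (d := d) (r + 1) (r + 1) (by omega) (by omega) le_rfl (by omega)]
  have hrR : (d : ℝ) = 2 * r := by rw [hr]; push_cast; ring
  rw [hrR]
  push_cast
  have h1 : (0 : ℝ) ≤ r := Nat.cast_nonneg r
  have h2 : ((r : ℝ) + 1) ≠ 0 := by positivity
  have h3 : (2 * (r : ℝ) + 2) ≠ 0 := by positivity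
  field_simp
  ring

theorem odd_identity (r : ℕ) : (1 : ℝ) - 1 / ((r + 1 : ℕ) : ℝ) - 1 / ((r + 2 : ℕ) : ℝ)
    = (((2 * r + 1 : ℕ) : ℝ) ^ 2 - 5)
      / ((((2 * r + 1 : ℕ) : ℝ) + 1) * (((2 * r + 1 : ℕ) : ℝ) + 3)) := by
  push_cast
  have h1 : (0 : ℝ) ≤ r := Nat.cast_nonneg r
  have h2 : ((r : ℝ) + 1) ≠ 0 := by positivity
  have h4 : ((r : ℝ) + 2) ≠ 0 := by positivity
  have h5 : (2 * (r : ℝ) + 1 + 1) ≠ 0 := by positivity
  have h6 : (2 * (r : ℝ) + 1 + 3) ≠ 0 := by positivity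
  field_simp
  ring

theorem value_odd (d : ℕ) (hd : 2 ≤ d) (ho : Odd d) :
    fragCoeff (quasiLineClass d)
      = ((d : ℝ) ^ 2 - 5) / (((d : ℝ) + 1) * ((d : ℝ) + 3)) := by
  obtain ⟨r, hr⟩ := ho
  rw [quasi_exact (d := d) (r + 1) (r + 2) (by omega) (by omega) (by omega) (by omega),
    odd_identity r, ← hr]

/-- Monotonicity of the coefficient for classes between the quasi-line class and all graphs. -/
theorem le_of_sub (d : ℕ) (hd : 2 ≤ d) (Cl : GraphClass)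
    (hCl : ∀ n G, quasiLineClass d n G → Cl n G) :
    fragCoeff (quasiLineClass d) ≤ fragCoeff Cl :=
  fragCoeff_mono hCl

theorem result :
    (∀ d : ℕ, 2 ≤ d → Even d →
      fragCoeff (quasiLineClass d) = ((d : ℝ) - 2) / ((d : ℝ) + 2)) ∧
    (∀ d : ℕ, 2 ≤ d → Odd d →
      fragCoeff (quasiLineClass d) = ((d : ℝ) ^ 2 - 5) / (((d : ℝ) + 1) * ((d : ℝ) + 3))) ∧
    (∀ d : ℕ, 2 ≤ d → Odd d →
      ((d : ℝ) ^ 2 - 5) / (((d : ℝ) + 1) * ((d : ℝ) + 3)) ≤ fragCoeff (maxDegClass d) ∧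
      ((d : ℝ) ^ 2 - 5) / (((d : ℝ) + 1) * ((d : ℝ) + 3)) ≤ fragCoeff (avgDegClass d)) := by
  refine ⟨value_even, value_odd, fun d hd ho => ?_⟩
  rw [← value_odd d hd ho]
  exact ⟨le_of_sub d hd _ fun n G h => h.1,
    le_of_sub d hd _ fun n G h => maxDeg_sub_avgDeg d n G h.1⟩

end Pool.Agent.Results.MP_547619_co.QuasiLineExact
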